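import Pool.Agent.Helper86.EA.E9

/-!
# The prime tuples conjecture for almost all patterns at every scale, with the exceptional zero in the main term

A common generalisation of Linnik's theorem (`s = 1`) and of the theorem of Montgomery and Vaughan (`s = 2`). For all
`s` and `ε` there are `D` and `δ, c > 0` such that for all `B` and `κ > 0` and EVERY large scale `N` there are a
modulus `r ≥ (log N) ^ B`, a character `χ` modulo `r` with `χ ^ 2 = 1` and a number `0 ≤ y ≤ 1 - N ^ (-κ)`, where either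
`y = 0` or `χ` is primitive and nontrivial and `y = N ^ (β - 1)` for a real zero `β` of `L(s, χ)`, with the following
property, for all systems of nonzero coefficients `a i` with absolute values at most `N ^ δ`. For all vectors `h` of
shifts with absolute values at most `N ^ (1 + δ)`, without a local obstruction, with the exception of at most
`N ^ (s - 1 - δ)` lines `e + ℤ a`, the singular series `S` is at least `c` and, for all intervals `[u, v)` inside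
`[-N, N]` of length at least `N ^ (1 - δ)` on which the forms are positive, the number of the `n` in `[u, v)` for which
all `a i * n + h i` are prime is

* `T S (v - u) / (log N) ^ s` up to the relative error `ε`, where `T` is the mean of the products of the
  `1 - y χ (a i * x + h i)` over the residues `x` modulo `r` for which all the `a i * x + h i` are prime to `r`, and
* `S (v - u) / (log N) ^ s` up to the relative error `ε`, if `r` does not divide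
  `D ∏ (a k * h i - a i * h k) ∏ a i`.

One has `(1 - y) ^ s ≤ T ≤ 2 ^ s`. In particular, at every large scale `N`, all patterns `(0, g 1, …, g k)` with
`0 ≤ g i ≤ A * N`, with the exception of at most `N ^ (k - δ)` of them, have the following property, for each `κ > 0`.
For ALL moduli `q ≤ N ^ δ` and ALL classes `0 ≤ b ≤ q` for which there is no local obstruction for the `q n + b + g i`,
these numbers are all prime for at least `N ^ (1 - κ)` of the `1 ≤ n < N`.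
-/

set_option autoImplicit false

namespace Pool.Agent.Results.MP_e87c7d_nt.LinnikMontgomeryVaughan

open Finset

/-- The number of the residue classes `x` modulo `p` for which `p` divides one of the `a i * x + h i`. -/
def nu {s : ℕ} (a h : Fin s → ℤ) (p : ℕ) : ℕ :=
  ((range p).filter (fun x : ℕ => ∃ i, (p : ℤ) ∣ a i * x + h i)).card

/-- There is no local obstruction. -/
def Admissible {s : ℕ} (a h : Fin s → ℤ) : Prop := ∀ p : ℕ, p.Prime → nu a h p < p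

/-- The discriminant, the product of the `a k * h i - a i * h k` over the ordered pairs of different indices. -/
def disc {s : ℕ} (a h : Fin s → ℤ) : ℤ := ∏ i, ∏ k ∈ univ.erase i, (a k * h i - a i * h k)

/-- `S` is the singular series of the system. -/
def IsSingularSeries {s : ℕ} (a h : Fin s → ℤ) (S : ℝ) : Prop :=
  HasProd (fun p : Nat.Primes => (1 - (nu a h p : ℝ) / (p : ℕ)) * ((1 - 1 / ((p : ℕ) : ℝ))⁻¹) ^ s) S

/-- The number of the `n` with `u ≤ n < v` for which all the `a i * n + h i` are prime. -/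
noncomputable def primeTuples {s : ℕ} (a h : Fin s → ℤ) (u v : ℤ) : ℕ :=
  ((Ico u v).filter (fun n : ℤ => ∀ i, (a i * n + h i).toNat.Prime)).card

/-- The shifts `b, b + g 1, …, b + g k`. -/
def shifts {k : ℕ} (b : ℕ) (g : Fin k → ℤ) : Fin (k + 1) → ℤ := Fin.cons (b : ℤ) (fun j => (b : ℤ) + g j)

/-- The residues `x` modulo `r` for which all the `a i * x + h i` are prime to `r`. -/
def unitResidues {s : ℕ} (r : ℕ) (a h : Fin s → ℤ) : Finset ℕ :=
  (range r).filter (fun x : ℕ => ∀ i, Int.gcd (a i * x + h i) r = 1)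

/-- The mean over these residues of the products of the `1 - y * χ (a i * x + h i)`. -/
noncomputable def twist {s r : ℕ} (χ : DirichletCharacter ℂ r) (y : ℝ) (a h : Fin s → ℤ) : ℝ :=
  (∑ x ∈ unitResidues r a h, ∏ i, (1 - y * (χ ((a i * x + h i : ℤ) : ZMod r)).re)) / (unitResidues r a h).card

open Classical in
/-- The prime tuples conjecture for almost all patterns at every scale, with the exceptional zero in the main term. -/
theorem result :
    (∀ s : ℕ, 1 ≤ s → ∀ ε : ℝ, 0 < ε → ∃ D : ℕ, 0 < D ∧ ∃ δ : ℝ, 0 < δ ∧ ∃ c : ℝ, 0 < c ∧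
      ∀ B : ℕ, ∀ κ : ℝ, 0 < κ → ∃ N₀ : ℕ, ∀ N : ℕ, N₀ ≤ N →
      ∃ r : ℕ, ∃ _ : NeZero r, Real.log N ^ B ≤ r ∧ ∃ χ : DirichletCharacter ℂ r, χ ^ 2 = 1 ∧
      ∃ y : ℝ, 0 ≤ y ∧ y ≤ 1 - (N : ℝ) ^ (-κ) ∧
      (y = 0 ∨ (χ.IsPrimitive ∧ χ ≠ 1 ∧ ∃ β : ℝ, y = (N : ℝ) ^ (β - 1) ∧ χ.LFunction β = 0)) ∧
      ∀ a : Fin s → ℤ, (∀ i, a i ≠ 0 ∧ ((|a i| : ℤ) : ℝ) ≤ (N : ℝ) ^ δ) →
        ∃ E : Finset (Fin s → ℤ), (E.card : ℝ) ≤ (N : ℝ) ^ ((s : ℝ) - 1 - δ) ∧
          ∀ h : Fin s → ℤ, (∀ i, ((|h i| : ℤ) : ℝ) ≤ (N : ℝ) ^ (1 + δ)) →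
            (∀ e ∈ E, ∀ t : ℤ, h ≠ e + t • a) → Admissible a h →
            (1 - y) ^ s ≤ twist χ y a h ∧ twist χ y a h ≤ 2 ^ s ∧
            ∃ S : ℝ, IsSingularSeries a h S ∧ c ≤ S ∧
              ∀ u v : ℤ, -(N : ℤ) ≤ u → v ≤ N → (N : ℝ) ^ (1 - δ) ≤ ((v - u : ℤ) : ℝ) →
              (∀ n ∈ Ico u v, ∀ i, 1 ≤ a i * n + h i) →
              |(primeTuples a h u v : ℝ) - twist χ y a h * S * (((v - u : ℤ) : ℝ) / Real.log N ^ s)| ≤
                ε * (twist χ y a h * S * (((v - u : ℤ) : ℝ) / Real.log N ^ s)) ∧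
              (¬ (r : ℤ) ∣ (D : ℤ) * (disc a h * ∏ i, a i) →
                |(primeTuples a h u v : ℝ) - S * (((v - u : ℤ) : ℝ) / Real.log N ^ s)| ≤
                  ε * (S * (((v - u : ℤ) : ℝ) / Real.log N ^ s)))) ∧
    (∀ k : ℕ, ∃ δ : ℝ, 0 < δ ∧ ∀ A : ℕ, ∀ κ : ℝ, 0 < κ → ∃ N₀ : ℕ, ∀ N : ℕ, N₀ ≤ N →
      (((Fintype.piFinset (fun _ : Fin k => Icc (0 : ℤ) (A * N))).filter
        (fun g => ∃ q b : ℕ, 1 ≤ q ∧ (q : ℝ) ≤ (N : ℝ) ^ δ ∧ b ≤ q ∧ Admissible (fun _ => (q : ℤ)) (shifts b g) ∧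
          (primeTuples (fun _ => (q : ℤ)) (shifts b g) 1 N : ℝ) < (N : ℝ) ^ (1 - κ))).card : ℝ) ≤
            (N : ℝ) ^ ((k : ℝ) - δ)) := by
  refine ⟨fun s hs ε hε => ?_, fun k => ?_⟩
  · obtain ⟨D, hD, δ, hδ, c, hc, h1⟩ := Pool.Agent.Helper86.EA.everyA s hs hε
    refine ⟨D, hD, δ, hδ, c, hc, fun B κ hκ => ?_⟩
    obtain ⟨N₀, hN₀⟩ := h1 B κ hκ
    refine ⟨N₀, fun N hN => ?_⟩
    obtain ⟨j, hj1, hj2, y, hy⟩ := hN₀ N hN
    exact ⟨j.1 + 1, inferInstance, hj1, j.2, hj2, y, hy⟩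
  obtain ⟨D, hD, δ0, hδ0, c, hc, hm⟩ := Pool.Agent.Helper86.EA.everyA (k + 1) (by omega) (ε := 1 / 2) (by norm_num)
  refine ⟨δ0 / 2, by positivity, fun A κ hκ => ?_⟩
  obtain ⟨κ', hκ'⟩ : ∃ κ' : ℝ, κ' = κ / (2 * (k + 1)) := ⟨_, rfl⟩
  have hκ'0 : 0 < κ' := by rw [hκ']; positivity
  obtain ⟨N₁, hN₁⟩ := hm 0 κ' hκ'0
  obtain ⟨N₂, hN₂⟩ := Pool.Agent.Helper86.PS.ev_log (4 / c) (k + 1) (a := κ / 2) (by positivity)
  obtain ⟨N₃, hN₃⟩ := Pool.Agent.Helper86.PS.ev_log (2 * (A : ℝ) + 2) 0 (a := δ0) hδ0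
  refine ⟨N₁ + N₂ + N₃ + 3, fun N hN => ?_⟩
  have hNr : (3 : ℝ) ≤ N := by exact_mod_cast (by omega : 3 ≤ N)
  have hN1r : (1 : ℝ) ≤ N := by linarith
  have hN0 : (0 : ℝ) < N := by linarith
  have hl0 : 0 < Real.log N := Real.log_pos (by linarith)
  obtain ⟨j, hr, hj2, y, hy0, hyκ, hyβ, hP⟩ := hN₁ N (by omega)
  obtain ⟨θ, hθ⟩ : ∃ θ : ℝ, θ = 1 - y := ⟨_, rfl⟩
  have hθ1 : (N : ℝ) ^ (-κ') ≤ θ := by rw [hθ]; linarith
  have hmono : (N : ℝ) ^ (δ0 / 2) ≤ (N : ℝ) ^ δ0 := Real.rpow_le_rpow_of_exponent_le hN1r (by linarith)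
  have hk : ((k + 1 : ℕ) : ℝ) - 1 - δ0 = (k : ℝ) - δ0 := by push_cast; ring
  have hN3 := hN₃ N (by omega)
  rw [pow_zero, mul_one] at hN3
  have hA0 : (0 : ℝ) ≤ A := Nat.cast_nonneg A
  -- the exceptional sets for the moduli `q`
  have hE : ∀ q : ℕ, 1 ≤ q → (q : ℝ) ≤ (N : ℝ) ^ (δ0 / 2) → ∃ E : Finset (Fin (k + 1) → ℤ),
      (E.card : ℝ) ≤ (N : ℝ) ^ ((k : ℝ) - δ0) ∧ ∀ b : ℕ, b ≤ q → ∀ g : Fin k → ℤ, (∀ j, 0 ≤ g j ∧ g j ≤ A * N) →
      Admissible (fun _ => (q : ℤ)) (shifts b g) → (∀ e ∈ E, ∀ t : ℤ, shifts b g ≠ e + t • (fun _ => (q : ℤ))) →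
      (N : ℝ) ^ (1 - κ) ≤ primeTuples (fun _ => (q : ℤ)) (shifts b g) 1 N := by
    intro q hq1 hq
    have hqz : (1 : ℤ) ≤ q := by exact_mod_cast hq1
    obtain ⟨E, hE1, hE2⟩ := hP (fun _ => (q : ℤ)) (fun i => ⟨by positivity, by
      rw [abs_of_nonneg (by positivity)]
      exact (by exact_mod_cast hq : ((q : ℤ) : ℝ) ≤ (N : ℝ) ^ (δ0 / 2)).trans hmono⟩)
    rw [hk] at hE1
    refine ⟨E, hE1, fun b hb g hg hadm hne => ?_⟩
    have q0 : (0 : ℤ) ≤ N := Int.natCast_nonneg _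
    have q1 : (0 : ℤ) ≤ A := Int.natCast_nonneg _
    have q2 : (0 : ℤ) ≤ A * N := mul_nonneg q1 q0
    have q3 : (0 : ℤ) ≤ b := Int.natCast_nonneg _
    have hgb : ∀ i, 0 ≤ shifts b g i ∧ shifts b g i ≤ b + A * N := by
      intro i
      refine Fin.cases ?_ (fun j => ?_) i
      · simp only [shifts, Fin.cons_zero]
        exact ⟨q3, by linarith⟩
      · simp only [shifts, Fin.cons_succ]
        have := hg j
        constructor <;> linarith [this.1, this.2]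
    have hNδ : 2 ≤ (N : ℝ) ^ δ0 := by linarith
    have hNb : (b : ℝ) + A * N ≤ (N : ℝ) ^ (1 + δ0) := by
      rw [Real.rpow_add hN0, Real.rpow_one]
      have e1 : (b : ℝ) ≤ (N : ℝ) ^ δ0 := le_trans (by exact_mod_cast hb) (hq.trans hmono)
      have e2 : (N : ℝ) * (2 * A + 2) ≤ N * (N : ℝ) ^ δ0 := mul_le_mul_of_nonneg_left hN3 hN0.le
      have e3 : 3 * (N : ℝ) ^ δ0 ≤ N * (N : ℝ) ^ δ0 := mul_le_mul_of_nonneg_right hNr (by positivity)
      have e5 : (N : ℝ) * (2 * A + 2) = 2 * (A * N) + 2 * N := by ring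
      linarith
    obtain ⟨hT1, hT2, S, hS, hcS, hS2⟩ := hE2 (shifts b g) (by
      intro i
      rw [abs_of_nonneg (hgb i).1]
      refine le_trans ?_ hNb
      exact_mod_cast (hgb i).2) hne hadm
    have hlen : (N : ℝ) ^ (1 - δ0) ≤ (((N : ℤ) - 1 : ℤ) : ℝ) := by
      rw [Real.rpow_sub hN0, Real.rpow_one]
      push_cast
      have e1 : (N : ℝ) / (N : ℝ) ^ δ0 ≤ N / 2 := div_le_div_of_nonneg_left hN0.le (by norm_num) hNδ
      linarith
    have hlow := (hS2 1 N (by linarith) le_rfl hlen (by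
      intro n hn i
      rw [mem_Ico] at hn
      have e1 := (hgb i).1
      have e2 : (1 : ℤ) * 1 ≤ q * n := mul_le_mul hqz hn.1 (by norm_num) (by linarith)
      linarith)).1
    have hθ0 : 0 ≤ θ := le_trans (Real.rpow_nonneg hN0.le _) hθ1
    have hS0 : 0 ≤ S := hc.le.trans hcS
    have hW0 : 0 ≤ ((((N : ℤ) - 1 : ℤ)) : ℝ) / Real.log N ^ (k + 1) := by
      apply div_nonneg _ (by positivity)
      push_cast
      linarith
    rw [← hθ] at hT1
    have hlow : 1 / 2 * θ ^ (k + 1) * (S * ((((N : ℤ) - 1 : ℤ) : ℝ) / Real.log N ^ (k + 1))) ≤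
        primeTuples (fun _ => (q : ℤ)) (shifts b g) 1 N := by
      have f1 := (abs_le.1 hlow).1
      have f2 : θ ^ (k + 1) * (S * ((((N : ℤ) - 1 : ℤ) : ℝ) / Real.log N ^ (k + 1))) ≤
          Pool.Agent.Helper86.EA.twA j y (fun _ => (q : ℤ)) (shifts b g) *
            (S * ((((N : ℤ) - 1 : ℤ) : ℝ) / Real.log N ^ (k + 1))) :=
        mul_le_mul_of_nonneg_right hT1 (mul_nonneg hS0 hW0)
      have f3 : (primeTuples (fun _ => (q : ℤ)) (shifts b g) 1 N : ℝ) =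
          Pool.Agent.Helper86.PS.pc (fun _ => (q : ℤ)) (shifts b g) 1 N := rfl
      rw [f3]
      rw [mul_assoc] at f1
      linarith
    refine le_trans ?_ hlow
    have hN2 := hN₂ N (by omega)
    have e1 : (N : ℝ) ^ (-(κ / 2)) ≤ θ ^ (k + 1) := by
      have f1 : ((N : ℝ) ^ (-κ')) ^ (k + 1) ≤ θ ^ (k + 1) := pow_le_pow_left₀ (Real.rpow_nonneg hN0.le _) hθ1 _
      refine le_trans (le_of_eq ?_) f1
      rw [← Real.rpow_natCast, ← Real.rpow_mul hN0.le]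
      congr 1
      rw [hκ']
      push_cast
      field_simp
    have e2 : (N : ℝ) / 2 ≤ ((((N : ℤ) - 1 : ℤ)) : ℝ) := by push_cast; linarith
    have e3 : (N : ℝ) ^ (1 - κ) = (N : ℝ) ^ (-(κ / 2)) * ((N : ℝ) ^ (-(κ / 2)) * N) := by
      have : (N : ℝ) ^ (-(κ / 2)) * N = (N : ℝ) ^ (-(κ / 2) + 1) := by rw [Real.rpow_add hN0, Real.rpow_one]
      rw [this, ← Real.rpow_add hN0]
      congr 1
      ring
    have e4 : (N : ℝ) ^ (-(κ / 2)) ≤ c / 4 / Real.log N ^ (k + 1) := by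
      rw [le_div_iff₀ (by positivity), Real.rpow_neg hN0.le, inv_mul_le_iff₀ (Real.rpow_pos_of_pos hN0 _)]
      rw [div_mul_eq_mul_div, div_le_iff₀ (by positivity)] at hN2
      linarith
    rw [e3]
    have hcs : 1 / 2 * θ ^ (k + 1) * (c * ((N : ℝ) / 2 / Real.log N ^ (k + 1))) ≤
        1 / 2 * θ ^ (k + 1) * (S * ((((N : ℤ) - 1 : ℤ) : ℝ) / Real.log N ^ (k + 1))) := by
      apply mul_le_mul_of_nonneg_left _ (by positivity)
      apply mul_le_mul hcS _ (by positivity) hS0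
      exact div_le_div_of_nonneg_right e2 (by positivity)
    refine le_trans ?_ hcs
    calc (N : ℝ) ^ (-(κ / 2)) * ((N : ℝ) ^ (-(κ / 2)) * N) ≤
        θ ^ (k + 1) * (c / 4 / Real.log N ^ (k + 1) * N) := by
          apply mul_le_mul e1 (mul_le_mul_of_nonneg_right e4 hN0.le) (by positivity)
          exact le_trans (Real.rpow_nonneg hN0.le _) e1
      _ = 1 / 2 * θ ^ (k + 1) * (c * ((N : ℝ) / 2 / Real.log N ^ (k + 1))) := by ring
  choose! E hE1 hE2 using hE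
  have hcard : ((Fintype.piFinset (fun _ : Fin k => Icc (0 : ℤ) (A * N))).filter
      (fun g => ∃ q b : ℕ, 1 ≤ q ∧ (q : ℝ) ≤ (N : ℝ) ^ (δ0 / 2) ∧ b ≤ q ∧ Admissible (fun _ => (q : ℤ)) (shifts b g) ∧
        (primeTuples (fun _ => (q : ℤ)) (shifts b g) 1 N : ℝ) < (N : ℝ) ^ (1 - κ))) ⊆
      (Icc 1 ⌊(N : ℝ) ^ (δ0 / 2)⌋₊).biUnion fun q => (E q).image (fun e => fun j : Fin k => e j.succ - e 0) := by
    intro g hg
    rw [mem_filter, Fintype.mem_piFinset] at hg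
    obtain ⟨hg1, q, b, hq1, hq, hb, hadm, hlt⟩ := hg
    have hg1' : ∀ j, 0 ≤ g j ∧ g j ≤ A * N := fun j => mem_Icc.1 (hg1 j)
    by_contra hcon
    apply absurd hlt
    push Not
    apply hE2 q hq1 hq b hb g hg1' hadm
    intro e he t heq
    apply hcon
    rw [mem_biUnion]
    refine ⟨q, mem_Icc.2 ⟨hq1, Nat.le_floor hq⟩, mem_image.2 ⟨e, he, ?_⟩⟩
    have z := congrFun heq 0
    funext j
    have w := congrFun heq j.succ
    simp only [shifts, Fin.cons_zero, Fin.cons_succ, Pi.add_apply, Pi.smul_apply, smul_eq_mul] at z w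
    linarith
  have e1 : ((((Fintype.piFinset (fun _ : Fin k => Icc (0 : ℤ) (A * N))).filter
      (fun g => ∃ q b : ℕ, 1 ≤ q ∧ (q : ℝ) ≤ (N : ℝ) ^ (δ0 / 2) ∧ b ≤ q ∧ Admissible (fun _ => (q : ℤ)) (shifts b g) ∧
        (primeTuples (fun _ => (q : ℤ)) (shifts b g) 1 N : ℝ) < (N : ℝ) ^ (1 - κ))).card : ℕ) : ℝ) ≤
      ∑ q ∈ Icc 1 ⌊(N : ℝ) ^ (δ0 / 2)⌋₊, ((E q).card : ℝ) := by
    refine le_trans (by exact_mod_cast (card_le_card hcard).trans card_biUnion_le) (le_trans (le_of_eq (Nat.cast_sum _ _)) ?_)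
    apply sum_le_sum
    intro q _
    exact_mod_cast card_image_le
  have e2 : ∑ q ∈ Icc 1 ⌊(N : ℝ) ^ (δ0 / 2)⌋₊, ((E q).card : ℝ) ≤
      ∑ _q ∈ Icc 1 ⌊(N : ℝ) ^ (δ0 / 2)⌋₊, (N : ℝ) ^ ((k : ℝ) - δ0) := by
    apply sum_le_sum
    intro q hq
    rw [mem_Icc] at hq
    exact hE1 q hq.1 ((Nat.cast_le.2 hq.2).trans (Nat.floor_le (Real.rpow_nonneg hN0.le _)))
  rw [sum_const, nsmul_eq_mul, Nat.card_Icc, Nat.add_sub_cancel] at e2
  have e3 : ((⌊(N : ℝ) ^ (δ0 / 2)⌋₊ : ℕ) : ℝ) * (N : ℝ) ^ ((k : ℝ) - δ0) ≤ (N : ℝ) ^ (δ0 / 2) * (N : ℝ) ^ ((k : ℝ) - δ0) :=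
    mul_le_mul_of_nonneg_right (Nat.floor_le (Real.rpow_nonneg hN0.le _)) (Real.rpow_nonneg hN0.le _)
  rw [← Real.rpow_add hN0] at e3
  have e4 : δ0 / 2 + ((k : ℝ) - δ0) = k - δ0 / 2 := by ring
  rw [e4] at e3
  exact e1.trans (e2.trans e3)

end Pool.Agent.Results.MP_e87c7d_nt.LinnikMontgomeryVaughan
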