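import Pool.Agent.Helper86.SE.L

/-!
# The prime tuples conjecture at most scales, with a power saving in the number of exceptions, large coefficients and
# all progressions to all moduli at once

For all `s`, `ε` there is `δ > 0` such that at most scales `N` the number of the `n` in an interval for which all
`a i * n + h i` are prime is the one predicted by Hardy and Littlewood, up to the relative error `ε`,

* for all systems of nonzero coefficients `a i` with absolute values at most `N ^ δ`,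
* for all vectors `h` of shifts with absolute values at most `N ^ (1 + δ)`, without a local obstruction, with the
  exception of at most `N ^ (s - 1 - δ)` lines `e + ℤ a` (on a line the problem is one and the same up to a translation
  of the interval),
* for all intervals `[u, v)` inside `[-N, N]` of length at least `N ^ (1 - δ)` on which the forms are positive.

Second part: for all `k`, `ε` there is `δ > 0` such that at most scales `N` all `g` with `|g j| ≤ N ^ (1 + δ)`, with the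
exception of at most `N ^ (k - δ)` of them, have the following property: for ALL moduli `q ≤ N ^ δ`, ALL residue classes
`b` modulo `q` for which the system `q n + b, q n + b + g 1, …, q n + b + g k` has no local obstruction, and for all
intervals `[u, v)` inside `[-N, N]` of length at least `N ^ (1 - δ)` on which these forms are positive, the number of the
`n` in `[u, v)` for which they are all prime is the one predicted by Hardy and Littlewood up to the relative error `ε`: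
the pattern `(0, g 1, …, g k)` satisfies the prime tuples conjecture in all progressions to all these moduli.

The result `LinnikMontgomeryVaughan` of this problem has the same systems at EVERY large scale, with the contribution of
a possible exceptional zero in the main term. Here the scales with such a zero are excluded.
-/

set_option autoImplicit false

namespace Pool.Agent.Results.MP_e87c7d_nt.MostScalesAllModuli

open Finset

open Classical in
/-- The property `P` holds at most scales: the set of the positive integers `N` with the property `P` has upper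
logarithmic density at least `1 - ε`. Precisely, for arbitrarily large `R` the sum of `1 / N` over the `N ≤ R`
without the property is at most `ε log R`. -/
def MostScales (ε : ℝ) (P : ℕ → Prop) : Prop :=
  ∀ R₀ : ℕ, ∃ R : ℕ, R₀ ≤ R ∧ ∑ N ∈ (Icc 1 R).filter (fun N => ¬ P N), (1 : ℝ) / N ≤ ε * Real.log R

/-- The number of the residue classes `x` modulo `p` for which `p` divides one of the `a i * x + h i`. -/
def nu {s : ℕ} (a h : Fin s → ℤ) (p : ℕ) : ℕ :=
  ((range p).filter (fun x : ℕ => ∃ i, (p : ℤ) ∣ a i * x + h i)).card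

/-- There is no local obstruction. -/
def Admissible {s : ℕ} (a h : Fin s → ℤ) : Prop := ∀ p : ℕ, p.Prime → nu a h p < p

/-- `S` is the singular series of the system. -/
def IsSingularSeries {s : ℕ} (a h : Fin s → ℤ) (S : ℝ) : Prop :=
  HasProd (fun p : Nat.Primes => (1 - (nu a h p : ℝ) / (p : ℕ)) * ((1 - 1 / ((p : ℕ) : ℝ))⁻¹) ^ s) S

/-- The number of the `n` with `u ≤ n < v` for which all the `a i * n + h i` are prime. -/
noncomputable def primeTuples {s : ℕ} (a h : Fin s → ℤ) (u v : ℤ) : ℕ :=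
  ((Ico u v).filter (fun n : ℤ => ∀ i, (a i * n + h i).toNat.Prime)).card

/-- The number of the `n` in `[u, v)` for which all the `a i * n + h i` are prime is `S (v - u) / (log N) ^ s` up to
the relative error `ε`, where `S > 0` is the singular series, for all intervals in `[-N, N]` of length at least
`N ^ (1 - δ)` on which the `a i * n + h i` are positive. -/
def Predicted {s : ℕ} (ε δ : ℝ) (N : ℕ) (a h : Fin s → ℤ) : Prop :=
  ∃ S : ℝ, IsSingularSeries a h S ∧ 0 < S ∧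
    ∀ u v : ℤ, -(N : ℤ) ≤ u → v ≤ N → (N : ℝ) ^ (1 - δ) ≤ ((v - u : ℤ) : ℝ) →
    (∀ n ∈ Ico u v, ∀ i, 1 ≤ a i * n + h i) →
    |(primeTuples a h u v : ℝ) - S * (((v - u : ℤ) : ℝ) / Real.log N ^ s)| ≤
      ε * (S * (((v - u : ℤ) : ℝ) / Real.log N ^ s))

/-- The shifts `b, b + g 1, …, b + g k`. -/
def shifts {k : ℕ} (b : ℕ) (g : Fin k → ℤ) : Fin (k + 1) → ℤ := Fin.cons (b : ℤ) (fun j => (b : ℤ) + g j)

/-- The vectors of `k` integers with absolute values at most `N ^ (1 + δ)`. -/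
noncomputable def vectors (k N : ℕ) (δ : ℝ) : Finset (Fin k → ℤ) :=
  Fintype.piFinset (fun _ : Fin k => Icc (-⌊(N : ℝ) ^ (1 + δ)⌋) ⌊(N : ℝ) ^ (1 + δ)⌋)

lemma predicted_mono {s N : ℕ} {ε ε' δ δ' : ℝ} {a h : Fin s → ℤ} (hN : 1 ≤ N) (hε : 0 < ε) (hεε : ε ≤ ε') (hδ : δ' ≤ δ)
    (hp : Predicted ε δ N a h) : Predicted ε' δ' N a h := by
  have hN1r : (1 : ℝ) ≤ N := by exact_mod_cast hN
  obtain ⟨S, hS, hS0, hS2⟩ := hp
  refine ⟨S, hS, hS0, fun u v hu hv hW hpos => ?_⟩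
  have h1 := hS2 u v hu hv ((Real.rpow_le_rpow_of_exponent_le hN1r (by linarith)).trans hW) hpos
  refine h1.trans ?_
  have h2 : 0 ≤ ε * (S * (((v - u : ℤ) : ℝ) / Real.log N ^ s)) := (abs_nonneg _).trans h1
  exact mul_le_mul_of_nonneg_right hεε (nonneg_of_mul_nonneg_right h2 hε)

/-- small scales do not matter -/
lemma most_large {ε : ℝ} (hε : 0 < ε) {P Q : ℕ → Prop} (N₀ : ℕ) (h : MostScales (ε / 2) P)
    (hPQ : ∀ N : ℕ, N₀ ≤ N → P N → Q N) : MostScales ε Q := by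
  classical
  intro R₀
  obtain ⟨R₁, hR₁⟩ := exists_nat_ge (Real.exp (2 * N₀ / ε))
  obtain ⟨R, hR, hs⟩ := h (R₀ + R₁ + 1)
  refine ⟨R, by omega, ?_⟩
  have hsub : (Icc 1 R).filter (fun N => ¬ Q N) ⊆ Icc 1 N₀ ∪ (Icc 1 R).filter (fun N => ¬ P N) := by
    intro N hN
    rw [mem_filter] at hN
    rw [mem_union]
    by_cases h1 : N ≤ N₀
    · exact Or.inl (mem_Icc.2 ⟨(mem_Icc.1 hN.1).1, h1⟩)
    · exact Or.inr (mem_filter.2 ⟨hN.1, fun hP => hN.2 (hPQ N (by omega) hP)⟩)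
  have h1 : ∑ N ∈ (Icc 1 R).filter (fun N => ¬ Q N), (1 : ℝ) / N ≤
      ∑ N ∈ Icc 1 N₀, (1 : ℝ) / N + ∑ N ∈ (Icc 1 R).filter (fun N => ¬ P N), (1 : ℝ) / N := by
    refine (sum_le_sum_of_subset_of_nonneg hsub fun N _ _ => by positivity).trans ?_
    rw [← sum_union_inter]
    have : 0 ≤ ∑ N ∈ Icc 1 N₀ ∩ (Icc 1 R).filter (fun N => ¬ P N), (1 : ℝ) / N := sum_nonneg fun N _ => by positivity
    linarith
  have h2 : ∑ N ∈ Icc 1 N₀, (1 : ℝ) / N ≤ N₀ := by
    calc ∑ N ∈ Icc 1 N₀, (1 : ℝ) / N ≤ ∑ _N ∈ Icc 1 N₀, (1 : ℝ) := by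
          apply sum_le_sum
          intro N hN
          have h3 : (1 : ℝ) ≤ N := by exact_mod_cast (mem_Icc.1 hN).1
          rw [div_le_one (by linarith)]
          exact h3
      _ = N₀ := by simp
  have h3 : 2 * (N₀ : ℝ) / ε ≤ Real.log R := by
    have e1 : Real.exp (2 * N₀ / ε) ≤ R := hR₁.trans (by exact_mod_cast (by omega : R₁ ≤ R))
    have e2 := Real.log_le_log (Real.exp_pos _) e1
    rwa [Real.log_exp] at e2
  have h4 : (N₀ : ℝ) ≤ ε / 2 * Real.log R := by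
    rw [div_le_iff₀ hε] at h3
    linarith
  linarith

open Classical in
/-- the first part -/
theorem part1 (s : ℕ) (hs : 1 ≤ s) (ε : ℝ) (hε : 0 < ε) : ∃ δ : ℝ, 0 < δ ∧ MostScales ε (fun N =>
    ∀ a : Fin s → ℤ, (∀ i, a i ≠ 0 ∧ ((|a i| : ℤ) : ℝ) ≤ (N : ℝ) ^ δ) →
      ∃ E : Finset (Fin s → ℤ), (E.card : ℝ) ≤ (N : ℝ) ^ ((s : ℝ) - 1 - δ) ∧
        ∀ h : Fin s → ℤ, (∀ i, ((|h i| : ℤ) : ℝ) ≤ (N : ℝ) ^ (1 + δ)) → (∀ e ∈ E, ∀ t : ℤ, h ≠ e + t • a) →
          Admissible a h → Predicted ε δ N a h) := by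
  obtain ⟨δ, hδ, hm⟩ := Pool.Agent.Helper86.SE.mostL s hs hε
  refine ⟨δ, hδ, fun R₀ => ?_⟩
  obtain ⟨R, hR, hsum⟩ := hm R₀
  refine ⟨R, hR, le_trans ?_ hsum⟩
  apply sum_le_sum_of_subset_of_nonneg
  · intro N hN
    rw [mem_filter] at hN ⊢
    refine ⟨hN.1, fun hP => hN.2 ?_⟩
    intro a ha
    obtain ⟨E, hE1, hE2⟩ := hP a ha
    refine ⟨E, hE1, fun h hh hne hadm => ?_⟩
    obtain ⟨S, hS1, hS2⟩ := hE2 h hh hne hadm
    exact ⟨S, hS1, Pool.Agent.Helper86.PS.S_pos hadm hS1, hS2⟩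
  · intro N _ _
    positivity

open Classical in
/-- The prime tuples conjecture at most scales with a power saving in the number of exceptions, for linear forms with
large coefficients, and for patterns in all progressions to all moduli up to a power of the scale. -/
theorem result :
    (∀ s : ℕ, 1 ≤ s → ∀ ε : ℝ, 0 < ε → ∃ δ : ℝ, 0 < δ ∧ MostScales ε (fun N =>
      ∀ a : Fin s → ℤ, (∀ i, a i ≠ 0 ∧ ((|a i| : ℤ) : ℝ) ≤ (N : ℝ) ^ δ) →
        ∃ E : Finset (Fin s → ℤ), (E.card : ℝ) ≤ (N : ℝ) ^ ((s : ℝ) - 1 - δ) ∧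
          ∀ h : Fin s → ℤ, (∀ i, ((|h i| : ℤ) : ℝ) ≤ (N : ℝ) ^ (1 + δ)) → (∀ e ∈ E, ∀ t : ℤ, h ≠ e + t • a) →
            Admissible a h → Predicted ε δ N a h)) ∧
    (∀ k : ℕ, ∀ ε : ℝ, 0 < ε → ∃ δ : ℝ, 0 < δ ∧ MostScales ε (fun N =>
      (((vectors k N δ).filter
        (fun g => ∃ q b : ℕ, 1 ≤ q ∧ (q : ℝ) ≤ (N : ℝ) ^ δ ∧ b ≤ q ∧ Admissible (fun _ => (q : ℤ)) (shifts b g) ∧
          ¬ Predicted ε δ N (fun _ => (q : ℤ)) (shifts b g))).card : ℝ) ≤ (N : ℝ) ^ ((k : ℝ) - δ))) := by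
  refine ⟨fun s hs ε hε => part1 s hs ε hε, fun k ε hε => ?_⟩
  obtain ⟨δ0, hδ0, hm⟩ := part1 (k + 1) (by omega) (ε / 2) (by positivity)
  obtain ⟨N₃, hN₃⟩ := Pool.Agent.Helper86.PS.ev_log 2 0 (a := δ0 / 2) (by positivity)
  refine ⟨δ0 / 2, by positivity, most_large hε (N₃ + 1) hm fun N hN hP => ?_⟩
  have hN1 : 1 ≤ N := by omega
  have hN1r : (1 : ℝ) ≤ N := by exact_mod_cast hN1
  have hN0 : (0 : ℝ) < N := by linarith
  have hmono : (N : ℝ) ^ (δ0 / 2) ≤ (N : ℝ) ^ δ0 := Real.rpow_le_rpow_of_exponent_le hN1r (by linarith)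
  have hk : ((k + 1 : ℕ) : ℝ) - 1 - δ0 = (k : ℝ) - δ0 := by push_cast; ring
  have hN3 := hN₃ N (by omega)
  rw [pow_zero, mul_one] at hN3
  obtain ⟨M, hM⟩ : ∃ M : ℤ, M = ⌊(N : ℝ) ^ (1 + δ0 / 2)⌋ := ⟨_, rfl⟩
  have hMle : (M : ℝ) ≤ (N : ℝ) ^ (1 + δ0 / 2) := by rw [hM]; exact Int.floor_le _
  have hM2 : (N : ℝ) ^ (1 + δ0) = (N : ℝ) ^ (δ0 / 2) * (N : ℝ) ^ (1 + δ0 / 2) := by
    rw [← Real.rpow_add hN0]
    congr 1
    ring
  have hM3 : 2 * (N : ℝ) ^ (1 + δ0 / 2) ≤ (N : ℝ) ^ (1 + δ0) := by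
    rw [hM2]
    exact mul_le_mul_of_nonneg_right hN3 (Real.rpow_nonneg hN0.le _)
  -- the exceptional sets for the moduli `q`
  have hE : ∀ q : ℕ, 1 ≤ q → (q : ℝ) ≤ (N : ℝ) ^ (δ0 / 2) → ∃ E : Finset (Fin (k + 1) → ℤ),
      (E.card : ℝ) ≤ (N : ℝ) ^ ((k : ℝ) - δ0) ∧ ∀ b : ℕ, b ≤ q → ∀ g : Fin k → ℤ, (∀ j, -M ≤ g j ∧ g j ≤ M) →
      Admissible (fun _ => (q : ℤ)) (shifts b g) → (∀ e ∈ E, ∀ t : ℤ, shifts b g ≠ e + t • (fun _ => (q : ℤ))) →
      Predicted ε (δ0 / 2) N (fun _ => (q : ℤ)) (shifts b g) := by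
    intro q hq1 hq
    have hqz : (1 : ℤ) ≤ q := by exact_mod_cast hq1
    obtain ⟨E, hE1, hE2⟩ := hP (fun _ => (q : ℤ)) (fun i => ⟨by positivity, by
      rw [abs_of_nonneg (by positivity)]
      exact (by exact_mod_cast hq : ((q : ℤ) : ℝ) ≤ (N : ℝ) ^ (δ0 / 2)).trans hmono⟩)
    rw [hk] at hE1
    refine ⟨E, hE1, fun b hb g hg hadm hne => ?_⟩
    have hbr : (b : ℝ) ≤ (N : ℝ) ^ (1 + δ0 / 2) := by
      have e1 : (b : ℝ) ≤ (N : ℝ) ^ (δ0 / 2) := le_trans (by exact_mod_cast hb) hq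
      exact e1.trans (Real.rpow_le_rpow_of_exponent_le hN1r (by linarith))
    have hgb : ∀ i, |shifts b g i| ≤ b + M := by
      intro i
      have hb0 : (0 : ℤ) ≤ b := Int.natCast_nonneg _
      have hM0 : 0 ≤ M := by
        rw [hM]
        exact Int.floor_nonneg.2 (Real.rpow_nonneg hN0.le _)
      refine Fin.cases ?_ (fun j => ?_) i
      · simp only [shifts, Fin.cons_zero]
        rw [abs_of_nonneg hb0]
        linarith
      · simp only [shifts, Fin.cons_succ]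
        have := hg j
        rw [abs_le]
        constructor <;> linarith [this.1, this.2]
    refine predicted_mono hN1 (by positivity) (by linarith) (by linarith) (hE2 (shifts b g) (fun i => ?_) hne hadm)
    have e1 : ((|shifts b g i| : ℤ) : ℝ) ≤ (((b : ℤ) + M : ℤ) : ℝ) := by exact_mod_cast hgb i
    have e2 : (((b : ℤ) + M : ℤ) : ℝ) = (b : ℝ) + M := by push_cast; ring
    rw [e2] at e1
    linarith
  choose! E hE1 hE2 using hE
  have hcard : (vectors k N (δ0 / 2)).filter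
      (fun g => ∃ q b : ℕ, 1 ≤ q ∧ (q : ℝ) ≤ (N : ℝ) ^ (δ0 / 2) ∧ b ≤ q ∧ Admissible (fun _ => (q : ℤ)) (shifts b g) ∧
        ¬ Predicted ε (δ0 / 2) N (fun _ => (q : ℤ)) (shifts b g)) ⊆
      (Icc 1 ⌊(N : ℝ) ^ (δ0 / 2)⌋₊).biUnion fun q => (E q).image (fun e => fun j : Fin k => e j.succ - e 0) := by
    intro g hg
    unfold vectors at hg
    rw [← hM, mem_filter, Fintype.mem_piFinset] at hg
    obtain ⟨hg1, q, b, hq1, hq, hb, hadm, hlt⟩ := hg
    have hg1' : ∀ j, -M ≤ g j ∧ g j ≤ M := fun j => mem_Icc.1 (hg1 j)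
    by_contra hcon
    apply hlt
    apply hE2 q hq1 hq b hb g hg1' hadm
    intro e he t heq
    apply hcon
    rw [mem_biUnion]
    refine ⟨q, mem_Icc.2 ⟨hq1, Nat.le_floor hq⟩, mem_image.2 ⟨e, he, ?_⟩⟩
    have z := congrFun heq 0
    funext j
    have w := congrFun heq j.succ
    simp only [shifts, Fin.cons_zero, Fin.cons_succ, Pi.add_apply, Pi.smul_apply, smul_eq_mul] at z w
    linarith
  have e1 : (((vectors k N (δ0 / 2)).filter
      (fun g => ∃ q b : ℕ, 1 ≤ q ∧ (q : ℝ) ≤ (N : ℝ) ^ (δ0 / 2) ∧ b ≤ q ∧ Admissible (fun _ => (q : ℤ)) (shifts b g) ∧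
        ¬ Predicted ε (δ0 / 2) N (fun _ => (q : ℤ)) (shifts b g))).card : ℝ) ≤
      ∑ q ∈ Icc 1 ⌊(N : ℝ) ^ (δ0 / 2)⌋₊, ((E q).card : ℝ) := by
    refine le_trans (by exact_mod_cast (card_le_card hcard).trans card_biUnion_le) (le_trans (le_of_eq (Nat.cast_sum _ _)) ?_)
    apply sum_le_sum
    intro q _
    exact_mod_cast card_image_le
  have e2 : ∑ q ∈ Icc 1 ⌊(N : ℝ) ^ (δ0 / 2)⌋₊, ((E q).card : ℝ) ≤
      ∑ _q ∈ Icc 1 ⌊(N : ℝ) ^ (δ0 / 2)⌋₊, (N : ℝ) ^ ((k : ℝ) - δ0) := by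
    apply sum_le_sum
    intro q hq
    rw [mem_Icc] at hq
    exact hE1 q hq.1 ((Nat.cast_le.2 hq.2).trans (Nat.floor_le (Real.rpow_nonneg hN0.le _)))
  rw [sum_const, nsmul_eq_mul, Nat.card_Icc, Nat.add_sub_cancel] at e2
  have e3 : ((⌊(N : ℝ) ^ (δ0 / 2)⌋₊ : ℕ) : ℝ) * (N : ℝ) ^ ((k : ℝ) - δ0) ≤ (N : ℝ) ^ (δ0 / 2) * (N : ℝ) ^ ((k : ℝ) - δ0) :=
    mul_le_mul_of_nonneg_right (Nat.floor_le (Real.rpow_nonneg hN0.le _)) (Real.rpow_nonneg hN0.le _)
  rw [← Real.rpow_add hN0] at e3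
  have e4 : δ0 / 2 + ((k : ℝ) - δ0) = k - δ0 / 2 := by ring
  rw [e4] at e3
  exact e1.trans (e2.trans e3)

end Pool.Agent.Results.MP_e87c7d_nt.MostScalesAllModuli
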