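import Pool.Agent.Helper85.RP.TupR
import Pool.Agent.Helper85.Old.AliquotShifts

/-!
# The prime tuples conjecture for almost all tuples of shifts near values of real polynomials in several variables

Let `F_1, ..., F_k` be polynomials with real coefficients in `n_1, ..., n_k` (independent) variables, of total degrees
`d_i ≥ 1`, and let `N_i ^ d_i` be about `X`, up to powers of `log X`. For all the `k`-tuples `(x_1, ..., x_k)` of integer
points of the boxes with the side lengths `2 N_i` with a proportion of at most `(log X)^(-U)` of exceptions, the formula of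
Hardy and Littlewood holds for the primes `p ≤ X` and ALL the shifts `a_1, ..., a_k ≥ 0` with `|a_i - F_i(x_i)| ≤ (log X)^T`.
The families of shifts can be very sparse (`N_i = X^(1/d_i)` values up to `X` in the case of one variable). The result is
uniform in all the coefficients of the lower degrees, and there is no Diophantine condition on the coefficients.

Proof. The integer parts of the values of `F_i` on the box have nearly minimal additive energy (`energy_box` in
`Helper85/RP/Slice`). The theorem on prime tuples with shifts from families of small additive energy (`N469/PT`, starting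
files; `Helper85/AE/Law`, `Helper85/RP/TupR`) completes the proof.
-/

set_option autoImplicit false

namespace Pool.Agent.Results.MP_e87c7d_nt.RealPolynomialShifts

open Finset
open Pool.Agent.W93.TD (HLs)

/-- The number of the residue classes modulo `p` occupied by `0, -a 1, ..., -a k`. -/
def nu {k : ℕ} (a : Fin k → ℕ) (p : ℕ) : ℕ := ((range p).filter (fun r => p ∣ r ∨ ∃ i, p ∣ r + a i)).card

/-- The partial product over the primes `p ≤ z` of the singular series of the tuple `(0, a 1, ..., a k)`. -/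
noncomputable def sing {k : ℕ} (a : Fin k → ℕ) (z : ℕ) : ℝ :=
  ∏ p ∈ (Icc 1 z).filter Nat.Prime, (1 - (nu a p : ℝ) / p) / (1 - 1 / (p : ℝ)) ^ (k + 1)

/-- There is no local obstruction to infinitely many prime tuples `(n, n + a 1, ..., n + a k)`. -/
def Admissible {k : ℕ} (a : Fin k → ℕ) : Prop := ∀ p : ℕ, p.Prime → ∃ r : ℕ, ¬ p ∣ r ∧ ∀ i, ¬ p ∣ r + a i

/-- The primes `p ≤ X` such that all `p + a i` are primes. -/
def primes {k : ℕ} (a : Fin k → ℕ) (X : ℕ) : Finset ℕ := (Icc 1 X).filter (fun p => p.Prime ∧ ∀ i, (p + a i).Prime)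

/-- The formula of Hardy and Littlewood for the shifts `a 1, ..., a k` and the primes up to `X`: the
singular series converges, its sum `S` predicts the weighted number of prime tuples with an error of
at most `X / log ^ U X`, and, if the shifts are admissible, `S` is positive and `S X / log ^ (k + 1) X`
predicts the number of prime tuples with a relative error of at most `ε`. -/
def Holds {k : ℕ} (ε : ℝ) (U X : ℕ) (a : Fin k → ℕ) : Prop :=
  ∃ S : ℝ, Filter.Tendsto (fun z => sing a z) Filter.atTop (nhds S) ∧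
    |∑ p ∈ primes a X, Real.log p * ∏ i, Real.log ((p : ℝ) + a i) - S * X| ≤ (X : ℝ) / Real.log X ^ U ∧
    (Admissible a → 0 < S ∧
      |((primes a X).card : ℝ) - S * (X / Real.log X ^ (k + 1))| ≤ ε * (S * (X / Real.log X ^ (k + 1))))

/-- the value of a real polynomial at an integer point -/
noncomputable def val {n : ℕ} (F : MvPolynomial (Fin n) ℝ) (x : Fin n → ℤ) : ℝ :=
  MvPolynomial.eval (fun i => (x i : ℝ)) F

/-- the `k`-tuples of integer points `x_i` whose coordinates have absolute values of at most `N_i` -/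
def boxes {k : ℕ} (n N : Fin k → ℕ) : Set (∀ i : Fin k, Fin (n i) → ℤ) := {x | ∀ i j, |x i j| ≤ N i}

/-- the number of the elements of `boxes n N` for which the formula does not hold for some tuple of shifts `a_i ≥ 0` with
`|a_i - F_i(x_i)| ≤ R` -/
noncomputable def exceptions {k : ℕ} {n : Fin k → ℕ} (ε : ℝ) (U X : ℕ) (R : ℝ) (F : ∀ i, MvPolynomial (Fin (n i)) ℝ)
    (N : Fin k → ℕ) : ℕ :=
  Nat.card {x : ∀ i : Fin k, Fin (n i) → ℤ // x ∈ boxes n N ∧
    ∃ a : Fin k → ℕ, (∀ i, |(a i : ℝ) - val (F i) (x i)| ≤ R) ∧ ¬ Holds ε U X a}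

/-- the number of the elements of `boxes n N`, by `card_boxes` -/
noncomputable def total {k : ℕ} (n N : Fin k → ℕ) : ℝ := ∏ i, (2 * (N i : ℝ) + 1) ^ n i

lemma card_boxes {k : ℕ} (n N : Fin k → ℕ) : (Nat.card (boxes n N) : ℝ) = total n N := by
  classical
  have h1 : Nat.card (boxes n N) = (Fintype.piFinset (fun i => Pool.Agent.Helper85.RP.box (n i) (N i))).card := by
    rw [← Fintype.card_coe, ← Nat.card_eq_fintype_card]
    apply Nat.card_congr
    apply Equiv.subtypeEquivRight
    intro x
    rw [Fintype.mem_piFinset]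
    simp only [Pool.Agent.Helper85.RP.mem_box]
    rfl
  rw [h1, Fintype.card_piFinset]
  unfold total
  push_cast
  apply prod_congr rfl
  intro i _
  rw [Pool.Agent.Helper85.RP.card_box]
  push_cast
  rfl

open Classical in
lemma exceptions_le {k : ℕ} {n : Fin k → ℕ} (ε : ℝ) (U X : ℕ) (R : ℝ) (F : ∀ i, MvPolynomial (Fin (n i)) ℝ)
    (N : Fin k → ℕ) : exceptions ε U X R F N ≤ ((Fintype.piFinset (fun i => Pool.Agent.Helper85.RP.box (n i) (N i))).filter
      (fun x => ∃ a : Fin k → ℕ, (∀ i, |(a i : ℝ) - MvPolynomial.eval (fun j => (x i j : ℝ)) (F i)| ≤ R) ∧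
        ¬ HLs ε U X a)).card := by
  unfold exceptions
  rw [← Fintype.card_coe, ← Nat.card_eq_fintype_card]
  apply Nat.card_le_card_of_injective (fun x => ⟨x.1, by
    rw [mem_filter, Fintype.mem_piFinset]
    obtain ⟨hx, a, ha, hh⟩ := x.2
    refine ⟨fun i => Pool.Agent.Helper85.RP.mem_box.2 fun j => hx i j, a, ha, fun hcon => hh ?_⟩
    exact AliquotShifts.holds_of hcon⟩)
  intro x y hxy
  simp only [Subtype.mk.injEq] at hxy
  exact Subtype.ext hxy

theorem uniform (k : ℕ) (hk : 1 ≤ k) (n d : Fin k → ℕ) (hd : ∀ i, 1 ≤ d i) (Φ : ∀ i, MvPolynomial (Fin (n i)) ℝ)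
    (hΦ : ∀ i, (Φ i).IsHomogeneous (d i)) (hΦ0 : ∀ i, Φ i ≠ 0) (B K T U : ℕ) (ε : ℝ) (hε : 0 < ε) :
    ∃ X₀ : ℕ, ∀ X : ℕ, X₀ ≤ X → ∀ N : Fin k → ℕ, (∀ i, (X : ℝ) ≤ Real.log X ^ K * (N i : ℝ) ^ d i) →
      ∀ G : ∀ i, MvPolynomial (Fin (n i)) ℝ, (∀ i, (G i).totalDegree < d i) →
      (∀ x ∈ boxes n N, ∀ i, |val (Φ i + G i) (x i)| ≤ B * X) →
      (exceptions ε U X (Real.log X ^ T) (fun i => Φ i + G i) N : ℝ) ≤ total n N / Real.log X ^ U := by
  classical
  obtain ⟨X₀, h0⟩ := Pool.Agent.Helper85.RP.near_tuples k hk n d hd Φ hΦ hΦ0 B K T U ε hε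
  refine ⟨X₀, fun X hX N hN G hG hb => ?_⟩
  have h1 := h0 X hX N hN G hG (fun i x hx => by
    have h2 := hb (fun j => if h : i = j then h ▸ x else fun _ => 0) (by
      intro j l
      by_cases h : i = j
      · subst h
        simp only [dite_true]
        exact Pool.Agent.Helper85.RP.mem_box.1 hx l
      · simp only [h, dite_false, abs_zero]
        exact Nat.cast_nonneg _) i
    simp only [dite_true] at h2
    exact h2)
  refine (Nat.cast_le.2 (exceptions_le ε U X (Real.log X ^ T) (fun i => Φ i + G i) N)).trans (h1.trans (le_of_eq ?_))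
  congr 1
  unfold total
  apply prod_congr rfl
  intro i _
  rw [Pool.Agent.Helper85.RP.card_box]
  push_cast
  rfl

/-- **The prime tuples conjecture for almost all tuples of shifts near values of real polynomials in several variables.**
For `i = 1, ..., k` let `Φ_i ≠ 0` be a form of the degree `d_i ≥ 1` in `n_i` variables with real coefficients. For
`X ≥ X₀`, all the `N_i` with `X ≤ (log X)^K N_i ^ d_i`, and all the real polynomials `G_i` of total degree less than `d_i` for
which `F_i = Φ_i + G_i` is at most `B X` in absolute value at the integer points `x_i` with coordinates of absolute values of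
at most `N_i`: with a proportion of at most `(log X)^(-U)` of exceptions, for all the `k`-tuples `(x_1, ..., x_k)` of such
points the formula of Hardy and Littlewood holds for the primes `p ≤ X` and all the shifts `a_i ≥ 0` with
`|a_i - F_i(x_i)| ≤ (log X)^T`. -/
theorem result (k : ℕ) (hk : 1 ≤ k) (n d : Fin k → ℕ) (hd : ∀ i, 1 ≤ d i) (Φ : ∀ i, MvPolynomial (Fin (n i)) ℝ)
    (hΦ : ∀ i, (Φ i).IsHomogeneous (d i)) (hΦ0 : ∀ i, Φ i ≠ 0) (B K T U : ℕ) (ε : ℝ) (hε : 0 < ε) :
    ∃ X₀ : ℕ, ∀ X : ℕ, X₀ ≤ X → ∀ N : Fin k → ℕ, (∀ i, (X : ℝ) ≤ Real.log X ^ K * (N i : ℝ) ^ d i) →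
      ∀ G : ∀ i, MvPolynomial (Fin (n i)) ℝ, (∀ i, (G i).totalDegree < d i) →
      (∀ x ∈ boxes n N, ∀ i, |val (Φ i + G i) (x i)| ≤ B * X) →
      (exceptions ε U X (Real.log X ^ T) (fun i => Φ i + G i) N : ℝ) ≤ (Nat.card (boxes n N) : ℝ) / Real.log X ^ U := by
  simp only [card_boxes]
  exact uniform k hk n d hd Φ hΦ hΦ0 B K T U ε hε

end Pool.Agent.Results.MP_e87c7d_nt.RealPolynomialShifts
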