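import Pool.Agent.Helper86.SE.M
import Pool.Agent.Helper86.SE.V

/-!
# The prime tuples conjecture for shifts in families of small additive energy, at every scale

The theorems of Linnik and of Montgomery and Vaughan for tuples of linear forms, the shifts in arbitrary sparse
families of small additive energy. (Joint work of helper85, who proved the energy bounds for polynomials and the passage
to product sets and found the method for most scales, and helper86, who treated the exceptional zero and general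
families.)

The additive energy of order `t` of a finite family `f x`, `x ∈ X`, of integers is the number of the solutions of
`f x_1 + ⋯ + f x_t = f y_1 + ⋯ + f y_t` with `x_i, y_i ∈ X`. For a family of integers of size about `N` it is at least
about `|X| ^ (2 t) / N`. The result concerns all families whose energy of some order `t ≤ K` is minimal up to a small
power of `N` (`SmallEnergy`).

(First part.) For all `s`, `K`, `ε` there are `D` and `δ, c > 0` such that for all `B` and `κ > 0` and EVERY large scale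
`N` there are a modulus `r ≥ (log N) ^ B`, a character `χ` modulo `r` with `χ ^ 2 = 1` and a number
`0 ≤ y ≤ 1 - N ^ (-κ)`, where either `y = 0` or `χ` is primitive and nontrivial and `y = N ^ (β - 1)` for a real zero `β`
of `L(s, χ)`, such that the following holds, for all systems of nonzero coefficients `a i` with absolute values at most
`N ^ δ` and all families `f i x`, `x ∈ X i`, with `|f i x| ≤ N ^ (1 + δ)` and with energy of an order `t i ≤ K` at most
`N ^ (δ - 1) |X i| ^ (2 t i)`. With the exception of at most `N ^ (-δ) |X 1| ⋯ |X s|` of them, all vectors `x` with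
`x i ∈ X i` have the property that for ALL shifts `h i` with `|h i - f i (x i)| ≤ N ^ δ` without a local obstruction the
singular series `S` is at least `c` and, for all intervals `[u, v)` inside `[-N, N]` of length at least `N ^ (1 - δ)` on
which the forms are positive, the number of the `n` in `[u, v)` for which all the `a i * n + h i` are prime is

* `T S (v - u) / (log N) ^ s` up to the relative error `ε`, where `T` is the mean of the products of the
  `1 - y χ (a i * x + h i)` over the residues `x` modulo `r` for which all the `a i * x + h i` are prime to `r`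
  (one has `(1 - y) ^ s ≤ T ≤ 2 ^ s`), and
* `S (v - u) / (log N) ^ s` up to the relative error `ε`, if `r` does not divide
  `D ∏ (a k * h i - a i * h k) ∏ a i`.

(Second part.) At most scales `N` the second formula holds without a condition on `r`, for all these families.

(Third part.) The values `F x`, `0 ≤ x < P`, of integer polynomials of degree `d` in `[1, K]` with
`|F x| ≤ N ^ (1 + δ')`, `P ^ d ≥ N ^ (1 - δ')`, are families of small energy (Hua's lemma), uniformly in `F`.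

(Fourth part.) So are the integer parts of the values of real polynomials `Φ + G` in several variables, `Φ` a fixed form
of degree `d` and `G` any real polynomial of degree less than `d`, which may depend on `N`.
-/

set_option autoImplicit false

namespace Pool.Agent.Results.MP_e87c7d_nt.SmallEnergyShifts

open Finset Polynomial

open Classical in
/-- The property `P` holds at most scales: the set of the positive integers `N` with the property `P` has upper
logarithmic density at least `1 - ε`. Precisely, for arbitrarily large `R` the sum of `1 / N` over the `N ≤ R`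
without the property is at most `ε log R`. -/
def MostScales (ε : ℝ) (P : ℕ → Prop) : Prop :=
  ∀ R₀ : ℕ, ∃ R : ℕ, R₀ ≤ R ∧ ∑ N ∈ (Icc 1 R).filter (fun N => ¬ P N), (1 : ℝ) / N ≤ ε * Real.log R

/-- The number of the residue classes `x` modulo `p` for which `p` divides one of the `a i * x + h i`. -/
def nu {s : ℕ} (a h : Fin s → ℤ) (p : ℕ) : ℕ :=
  ((range p).filter (fun x : ℕ => ∃ i, (p : ℤ) ∣ a i * x + h i)).card

/-- There is no local obstruction. -/
def Admissible {s : ℕ} (a h : Fin s → ℤ) : Prop := ∀ p : ℕ, p.Prime → nu a h p < p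

/-- The discriminant, the product of the `a k * h i - a i * h k` over the ordered pairs of different indices. -/
def disc {s : ℕ} (a h : Fin s → ℤ) : ℤ := ∏ i, ∏ k ∈ univ.erase i, (a k * h i - a i * h k)

/-- `S` is the singular series of the system. -/
def IsSingularSeries {s : ℕ} (a h : Fin s → ℤ) (S : ℝ) : Prop :=
  HasProd (fun p : Nat.Primes => (1 - (nu a h p : ℝ) / (p : ℕ)) * ((1 - 1 / ((p : ℕ) : ℝ))⁻¹) ^ s) S

/-- The number of the `n` with `u ≤ n < v` for which all the `a i * n + h i` are prime. -/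
noncomputable def primeTuples {s : ℕ} (a h : Fin s → ℤ) (u v : ℤ) : ℕ :=
  ((Ico u v).filter (fun n : ℤ => ∀ i, (a i * n + h i).toNat.Prime)).card

/-- The residues `x` modulo `r` for which all the `a i * x + h i` are prime to `r`. -/
def unitResidues {s : ℕ} (r : ℕ) (a h : Fin s → ℤ) : Finset ℕ :=
  (range r).filter (fun x : ℕ => ∀ i, Int.gcd (a i * x + h i) r = 1)

/-- The mean over these residues of the products of the `1 - y * χ (a i * x + h i)`. -/
noncomputable def twist {s r : ℕ} (χ : DirichletCharacter ℂ r) (y : ℝ) (a h : Fin s → ℤ) : ℝ :=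
  (∑ x ∈ unitResidues r a h, ∏ i, (1 - y * (χ ((a i * x + h i : ℤ) : ZMod r)).re)) / (unitResidues r a h).card

/-- The additive energy of order `t` of the family `f x`, `x ∈ X`: the number of the solutions of
`f x_1 + ⋯ + f x_t = f y_1 + ⋯ + f y_t` with `x_i, y_i ∈ X`. -/
def energy {ι : Type} (X : Finset ι) (f : ι → ℤ) (t : ℕ) : ℕ :=
  ((Fintype.piFinset (fun _ : Fin t => X) ×ˢ Fintype.piFinset (fun _ : Fin t => X)).filter
    (fun p => ∑ i, f (p.1 i) = ∑ i, f (p.2 i))).card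

/-- The integers `f x`, `x ∈ X`, have absolute values at most `N ^ (1 + δ)`, and their additive energy of order `t` is
at most `N ^ (δ - 1) |X| ^ (2 t)`. -/
def SmallEnergy {ι : Type} (δ : ℝ) (N t : ℕ) (X : Finset ι) (f : ι → ℤ) : Prop :=
  (∀ x ∈ X, ((|f x| : ℤ) : ℝ) ≤ (N : ℝ) ^ (1 + δ)) ∧ (N : ℝ) ^ (1 - δ) * energy X f t ≤ (X.card : ℝ) ^ (2 * t)

/-- The integer points `x` with `|x i| ≤ P` for all `i`. -/
noncomputable def box (n P : ℕ) : Finset (Fin n → ℤ) := Fintype.piFinset (fun _ => Icc (-(P : ℤ)) P)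

/-- The property `R` holds at the scale `N`, for all nonzero coefficients `a i` with absolute values at most `N ^ δ`,
for almost all admissible vectors of shifts `h i` with `|h i - f i (x i)| ≤ N ^ δ`, for all families `f i x`, `x ∈ X i`,
of small additive energy of an order at most `K`. Here almost all means for all vectors `x` with `x i ∈ X i` with the
exception of at most `N ^ (-δ) * ∏ |X i|` of them. -/
def AlmostAllInFamilies (s K : ℕ) (δ : ℝ) (N : ℕ) (R : (Fin s → ℤ) → (Fin s → ℤ) → Prop) : Prop :=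
  ∀ a : Fin s → ℤ, (∀ i, a i ≠ 0 ∧ ((|a i| : ℤ) : ℝ) ≤ (N : ℝ) ^ δ) →
    ∀ (ι : Fin s → Type) (X : ∀ i, Finset (ι i)) (f : ∀ i, ι i → ℤ) (t : Fin s → ℕ),
    (∀ i, 1 ≤ t i ∧ t i ≤ K) → (∀ i, SmallEnergy δ N (t i) (X i) (f i)) →
    ∃ E : Finset (∀ i, ι i), (E.card : ℝ) ≤ (N : ℝ) ^ (-δ) * ∏ i, ((X i).card : ℝ) ∧
      ∀ x : ∀ i, ι i, (∀ i, x i ∈ X i) → x ∉ E →
        ∀ h : Fin s → ℤ, (∀ i, ((|h i - f i (x i)| : ℤ) : ℝ) ≤ (N : ℝ) ^ δ) → Admissible a h → R a h

/-- the first part -/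
theorem part1 (s : ℕ) (hs : 1 ≤ s) (K : ℕ) (ε : ℝ) (hε : 0 < ε) :
    ∃ D : ℕ, 0 < D ∧ ∃ δ : ℝ, 0 < δ ∧ ∃ c : ℝ, 0 < c ∧
      ∀ B : ℕ, ∀ κ : ℝ, 0 < κ → ∃ N₀ : ℕ, ∀ N : ℕ, N₀ ≤ N →
      ∃ r : ℕ, ∃ _ : NeZero r, Real.log N ^ B ≤ r ∧ ∃ χ : DirichletCharacter ℂ r, χ ^ 2 = 1 ∧
      ∃ y : ℝ, 0 ≤ y ∧ y ≤ 1 - (N : ℝ) ^ (-κ) ∧
      (y = 0 ∨ (χ.IsPrimitive ∧ χ ≠ 1 ∧ ∃ β : ℝ, y = (N : ℝ) ^ (β - 1) ∧ χ.LFunction β = 0)) ∧
      AlmostAllInFamilies s K δ N (fun a h =>
        (1 - y) ^ s ≤ twist χ y a h ∧ twist χ y a h ≤ 2 ^ s ∧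
        ∃ S : ℝ, IsSingularSeries a h S ∧ c ≤ S ∧
        ∀ u v : ℤ, -(N : ℤ) ≤ u → v ≤ N → (N : ℝ) ^ (1 - δ) ≤ ((v - u : ℤ) : ℝ) →
        (∀ n ∈ Ico u v, ∀ i, 1 ≤ a i * n + h i) →
        |(primeTuples a h u v : ℝ) - twist χ y a h * S * (((v - u : ℤ) : ℝ) / Real.log N ^ s)| ≤
          ε * (twist χ y a h * S * (((v - u : ℤ) : ℝ) / Real.log N ^ s)) ∧
        (¬ (r : ℤ) ∣ (D : ℤ) * (disc a h * ∏ i, a i) →
          |(primeTuples a h u v : ℝ) - S * (((v - u : ℤ) : ℝ) / Real.log N ^ s)| ≤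
            ε * (S * (((v - u : ℤ) : ℝ) / Real.log N ^ s)))) := by
  classical
  obtain ⟨D, hD, δ, hδ, c, hc, h1⟩ := Pool.Agent.Helper86.SE.everyF s hs K hε
  refine ⟨D, hD, δ, hδ, c, hc, fun B κ hκ => ?_⟩
  obtain ⟨N₀, hN₀⟩ := h1 B κ hκ
  refine ⟨N₀, fun N hN => ?_⟩
  obtain ⟨j, hj1, hj2, y, hy0, hy1, hyβ, hP⟩ := hN₀ N hN
  refine ⟨j.1 + 1, inferInstance, hj1, j.2, hj2, y, hy0, hy1, hyβ, ?_⟩
  intro a ha ι X f t ht hXf
  have htr := fun i => Pool.Agent.Helper86.SE.transfer (X i) (f i)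
  choose X' f' e hinj heX hXe hcard' hfe hnrg using htr
  obtain ⟨E', hE1, hE2⟩ := hP a ha t X' f' ht (fun i => ⟨fun z hz => by
      obtain ⟨x, hx, rfl⟩ := hXe i z hz
      rw [hfe i x hx]
      exact (hXf i).1 x hx, by
      rw [hcard' i]
      refine le_trans (mul_le_mul_of_nonneg_left ?_ (Real.rpow_nonneg (Nat.cast_nonneg _) _)) (hXf i).2
      exact_mod_cast hnrg i (t i)⟩)
  refine ⟨(Fintype.piFinset X).filter (fun x => (fun i => e i (x i)) ∈ E'), ?_, fun x hx hxE h hh hadm => ?_⟩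
  · have h2 : ((Fintype.piFinset X).filter (fun x => (fun i => e i (x i)) ∈ E')).card ≤ E'.card := by
      apply card_le_card_of_injOn (fun x : ∀ i, ι i => fun i => e i (x i))
      · intro x hx
        rw [mem_coe, mem_filter] at hx
        exact mem_coe.2 hx.2
      · intro x hx x' hx' hxx
        rw [mem_coe, mem_filter, Fintype.mem_piFinset] at hx hx'
        funext i
        exact hinj i (mem_coe.2 (hx.1 i)) (mem_coe.2 (hx'.1 i)) (congrFun hxx i)
    have h3 : ∏ i, ((X' i).card : ℝ) = ∏ i, ((X i).card : ℝ) := prod_congr rfl fun i _ => by rw [hcard' i]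
    rw [h3] at hE1
    exact le_trans (by exact_mod_cast h2) hE1
  · exact hE2 (fun i => e i (x i)) (fun i => heX i (x i) (hx i)) (fun hc => hxE (mem_filter.2
      ⟨Fintype.mem_piFinset.2 hx, hc⟩)) h (fun i => by rw [hfe i (x i) (hx i)]; exact hh i) hadm

open Classical in
/-- the second part -/
theorem part2 (s : ℕ) (hs : 1 ≤ s) (K : ℕ) (ε : ℝ) (hε : 0 < ε) :
    ∃ δ : ℝ, 0 < δ ∧ MostScales ε (fun N =>
      AlmostAllInFamilies s K δ N (fun a h => ∃ S : ℝ, IsSingularSeries a h S ∧ 0 < S ∧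
        ∀ u v : ℤ, -(N : ℤ) ≤ u → v ≤ N → (N : ℝ) ^ (1 - δ) ≤ ((v - u : ℤ) : ℝ) →
        (∀ n ∈ Ico u v, ∀ i, 1 ≤ a i * n + h i) →
        |(primeTuples a h u v : ℝ) - S * (((v - u : ℤ) : ℝ) / Real.log N ^ s)| ≤
          ε * (S * (((v - u : ℤ) : ℝ) / Real.log N ^ s)))) := by
  obtain ⟨δ, hδ, hm⟩ := Pool.Agent.Helper86.SE.mostF s hs K hε
  refine ⟨δ, hδ, fun R₀ => ?_⟩
  obtain ⟨R, hR, hsum⟩ := hm R₀
  refine ⟨R, hR, le_trans ?_ hsum⟩
  apply sum_le_sum_of_subset_of_nonneg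
  · intro N hN
    rw [mem_filter] at hN ⊢
    refine ⟨hN.1, fun hP => hN.2 ?_⟩
    intro a ha ι X f t ht hXf
    have htr := fun i => Pool.Agent.Helper86.SE.transfer (X i) (f i)
    choose X' f' e hinj heX hXe hcard' hfe hnrg using htr
    obtain ⟨E', hE1, hE2⟩ := hP a ha t X' f' ht (fun i => ⟨fun z hz => by
        obtain ⟨x, hx, rfl⟩ := hXe i z hz
        rw [hfe i x hx]
        exact (hXf i).1 x hx, by
        rw [hcard' i]
        refine le_trans (mul_le_mul_of_nonneg_left ?_ (Real.rpow_nonneg (Nat.cast_nonneg _) _)) (hXf i).2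
        exact_mod_cast hnrg i (t i)⟩)
    refine ⟨(Fintype.piFinset X).filter (fun x => (fun i => e i (x i)) ∈ E'), ?_, fun x hx hxE h hh hadm => ?_⟩
    · have h2 : ((Fintype.piFinset X).filter (fun x => (fun i => e i (x i)) ∈ E')).card ≤ E'.card := by
        apply card_le_card_of_injOn (fun x : ∀ i, ι i => fun i => e i (x i))
        · intro x hx
          rw [mem_coe, mem_filter] at hx
          exact mem_coe.2 hx.2
        · intro x hx x' hx' hxx
          rw [mem_coe, mem_filter, Fintype.mem_piFinset] at hx hx'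
          funext i
          exact hinj i (mem_coe.2 (hx.1 i)) (mem_coe.2 (hx'.1 i)) (congrFun hxx i)
      have h3 : ∏ i, ((X' i).card : ℝ) = ∏ i, ((X i).card : ℝ) := prod_congr rfl fun i _ => by rw [hcard' i]
      rw [h3] at hE1
      exact le_trans (by exact_mod_cast h2) hE1
    · obtain ⟨S, hS1, hS2⟩ := hE2 (fun i => e i (x i)) (fun i => heX i (x i) (hx i)) (fun hc => hxE (mem_filter.2
        ⟨Fintype.mem_piFinset.2 hx, hc⟩)) h (fun i => by rw [hfe i (x i) (hx i)]; exact hh i) hadm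
      exact ⟨S, hS1, Pool.Agent.Helper86.PS.S_pos hadm hS1, hS2⟩
  · intro N _ _
    positivity

open Classical in
/-- The prime tuples conjecture for shifts in families of small additive energy: at every scale the asymptotic formula
with a possible exceptional zero in the main term (without it unless the exceptional modulus divides the discriminant);
at most scales the asymptotic formula without it; the values of integer polynomials and the integer parts of the values
of real polynomials in several variables are families of small energy. -/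
theorem result :
    (∀ s : ℕ, 1 ≤ s → ∀ K : ℕ, ∀ ε : ℝ, 0 < ε → ∃ D : ℕ, 0 < D ∧ ∃ δ : ℝ, 0 < δ ∧ ∃ c : ℝ, 0 < c ∧
      ∀ B : ℕ, ∀ κ : ℝ, 0 < κ → ∃ N₀ : ℕ, ∀ N : ℕ, N₀ ≤ N →
      ∃ r : ℕ, ∃ _ : NeZero r, Real.log N ^ B ≤ r ∧ ∃ χ : DirichletCharacter ℂ r, χ ^ 2 = 1 ∧
      ∃ y : ℝ, 0 ≤ y ∧ y ≤ 1 - (N : ℝ) ^ (-κ) ∧
      (y = 0 ∨ (χ.IsPrimitive ∧ χ ≠ 1 ∧ ∃ β : ℝ, y = (N : ℝ) ^ (β - 1) ∧ χ.LFunction β = 0)) ∧
      AlmostAllInFamilies s K δ N (fun a h =>
        (1 - y) ^ s ≤ twist χ y a h ∧ twist χ y a h ≤ 2 ^ s ∧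
        ∃ S : ℝ, IsSingularSeries a h S ∧ c ≤ S ∧
        ∀ u v : ℤ, -(N : ℤ) ≤ u → v ≤ N → (N : ℝ) ^ (1 - δ) ≤ ((v - u : ℤ) : ℝ) →
        (∀ n ∈ Ico u v, ∀ i, 1 ≤ a i * n + h i) →
        |(primeTuples a h u v : ℝ) - twist χ y a h * S * (((v - u : ℤ) : ℝ) / Real.log N ^ s)| ≤
          ε * (twist χ y a h * S * (((v - u : ℤ) : ℝ) / Real.log N ^ s)) ∧
        (¬ (r : ℤ) ∣ (D : ℤ) * (disc a h * ∏ i, a i) →
          |(primeTuples a h u v : ℝ) - S * (((v - u : ℤ) : ℝ) / Real.log N ^ s)| ≤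
            ε * (S * (((v - u : ℤ) : ℝ) / Real.log N ^ s))))) ∧
    (∀ s : ℕ, 1 ≤ s → ∀ K : ℕ, ∀ ε : ℝ, 0 < ε → ∃ δ : ℝ, 0 < δ ∧ MostScales ε (fun N =>
      AlmostAllInFamilies s K δ N (fun a h => ∃ S : ℝ, IsSingularSeries a h S ∧ 0 < S ∧
        ∀ u v : ℤ, -(N : ℤ) ≤ u → v ≤ N → (N : ℝ) ^ (1 - δ) ≤ ((v - u : ℤ) : ℝ) →
        (∀ n ∈ Ico u v, ∀ i, 1 ≤ a i * n + h i) →
        |(primeTuples a h u v : ℝ) - S * (((v - u : ℤ) : ℝ) / Real.log N ^ s)| ≤
          ε * (S * (((v - u : ℤ) : ℝ) / Real.log N ^ s))))) ∧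
    (∀ K : ℕ, ∀ δ : ℝ, 0 < δ → ∃ δ' : ℝ, 0 < δ' ∧ ∃ N₀ : ℕ, ∀ N : ℕ, N₀ ≤ N → ∀ (P : ℕ) (F : ℤ[X]),
      1 ≤ F.natDegree → F.natDegree ≤ K → (N : ℝ) ^ (1 - δ') ≤ (P : ℝ) ^ F.natDegree →
      (∀ x : ℕ, x < P → ((|F.eval (x : ℤ)| : ℤ) : ℝ) ≤ (N : ℝ) ^ (1 + δ')) →
      SmallEnergy δ N (2 ^ (F.natDegree - 1)) (range P) (fun x : ℕ => F.eval (x : ℤ))) ∧
    (∀ n d : ℕ, 1 ≤ d → ∀ Φ : MvPolynomial (Fin n) ℝ, Φ.IsHomogeneous d → Φ ≠ 0 →
      ∃ t : ℕ, 1 ≤ t ∧ ∀ δ : ℝ, 0 < δ → ∃ N₀ : ℕ, ∀ N : ℕ, N₀ ≤ N → ∀ P : ℕ, (N : ℝ) ^ (1 - δ / 2) ≤ (P : ℝ) ^ d →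
      ∀ G : MvPolynomial (Fin n) ℝ, G.totalDegree < d →
      (∀ x ∈ box n P, ((|⌊MvPolynomial.eval (fun i => (x i : ℝ)) (Φ + G)⌋| : ℤ) : ℝ) ≤ (N : ℝ) ^ (1 + δ)) →
      SmallEnergy δ N t (box n P) (fun x => ⌊MvPolynomial.eval (fun i => (x i : ℝ)) (Φ + G)⌋)) := by
  refine ⟨part1, part2, ?_, ?_⟩
  · intro K δ hδ
    obtain ⟨δ', hδ', N₀, h⟩ := Pool.Agent.Helper86.SE.pol_small K hδ
    refine ⟨min δ' δ, lt_min hδ' hδ, N₀ + 1, fun N hN P F h1 h2 h3 h4 => ?_⟩
    have hN1r : (1 : ℝ) ≤ N := by exact_mod_cast (by omega : 1 ≤ N)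
    have g1 := min_le_left δ' δ
    have g2 := min_le_right δ' δ
    refine ⟨fun x hx => (h4 x (mem_range.1 hx)).trans (Real.rpow_le_rpow_of_exponent_le hN1r (by linarith)), ?_⟩
    rw [card_range]
    exact h N (by omega) P F h1 h2 ((Real.rpow_le_rpow_of_exponent_le hN1r (by linarith)).trans h3)
      (fun x hx => (h4 x hx).trans (Real.rpow_le_rpow_of_exponent_le hN1r (by linarith)))
  · intro n d hd Φ hΦ hΦ0
    obtain ⟨t, ht, h⟩ := Pool.Agent.Helper86.SE.real_small n d hd Φ hΦ hΦ0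
    refine ⟨t, ht, fun δ hδ => ?_⟩
    obtain ⟨N₀, hN₀⟩ := h δ hδ
    exact ⟨N₀, fun N hN P hP G hG hB => ⟨hB, hN₀ N hN P hP G hG⟩⟩

end Pool.Agent.Results.MP_e87c7d_nt.SmallEnergyShifts
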